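import Pool.Agent.E8helper78.FL.Basic

/-!
# One rotation of the simple roots (MP_b68fb8_co, piece S_ROT1)
-/

set_option autoImplicit false

open scoped RealInnerProductSpace NNReal

namespace Pool.Agent.E8helper40.FL

open Pool.Agent.E8helper78.FL

variable {V : Type} [NormedAddCommGroup V] [InnerProductSpace ℝ V]

theorem li_zero {T : Set V} (hT : T.Finite) (h : LinearIndependent ℝ (fun a : T => (a : V)))
    (f : V → ℝ) (h0 : ∑ d ∈ hT.toFinset, f d • d = 0) : ∀ d ∈ T, f d = 0 := by
  have h1 : LinearIndepOn ℝ id (hT.toFinset : Set V) := by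
    rw [Set.Finite.coe_toFinset]
    exact h
  intro d hd
  exact linearIndepOn_finset_iff.1 h1 f h0 d (hT.mem_toFinset.2 hd)

open Classical in
theorem key {T : Set V} (hT : T.Finite) (h : LinearIndependent ℝ (fun a : T => (a : V)))
    {a b : V} (ha : a ∈ T) (ha1 : ‖a‖ = 1) (hb1 : ‖b‖ = 1) (hb : b ∈ cone T)
    (hr : - rf a b ∈ cone T) : b = a := by
  obtain ⟨f, f1, -, f3⟩ := exists_coeff hT hb
  obtain ⟨e, e1, -, e3⟩ := exists_coeff hT hr
  have h0 : ∑ d ∈ hT.toFinset, (f d + e d - if d = a then 2 * ⟪a, b⟫ else 0) • d = 0 := by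
    simp only [sub_smul, add_smul, Finset.sum_sub_distrib, Finset.sum_add_distrib, ite_smul, zero_smul]
    rw [← f3, ← e3, Finset.sum_ite_eq', if_pos (hT.mem_toFinset.2 ha), rf_apply ha1]
    abel
  have h1 := li_zero hT h _ h0
  have h2 : ∀ d ∈ T, d ≠ a → f d = 0 := by
    intro d hd hda
    have h3 := h1 d hd
    rw [if_neg hda, sub_zero] at h3
    exact le_antisymm (by linarith [e1 d]) (f1 d)
  have h4 : b = f a • a := by
    refine f3.trans (Finset.sum_eq_single a ?_ ?_)
    · intro d hd hda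
      rw [h2 d (hT.mem_toFinset.1 hd) hda, zero_smul]
    · intro h5
      exact absurd (hT.mem_toFinset.2 ha) h5
  have h5 : f a = 1 := by
    have h6 : ‖b‖ = ‖f a • a‖ := congrArg _ h4
    rw [norm_smul, ha1, hb1, mul_one, Real.norm_of_nonneg (f1 a)] at h6
    exact h6.symm
  rw [h4, h5, one_smul]

theorem neg_notMem {T : Set V} (hT : T.Finite) (h : LinearIndependent ℝ (fun a : T => (a : V)))
    {a : V} (ha : a ∈ T) : - a ∉ cone T := by
  classical
  intro hn
  obtain ⟨f, f1, -, f3⟩ := exists_coeff hT hn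
  have h0 : ∑ d ∈ hT.toFinset, (f d + if d = a then 1 else 0) • d = 0 := by
    simp only [add_smul, Finset.sum_add_distrib, ite_smul, zero_smul, one_smul]
    rw [← f3, Finset.sum_ite_eq', if_pos (hT.mem_toFinset.2 ha)]
    abel
  have h1 := li_zero hT h _ h0 a ha
  rw [if_pos rfl] at h1
  linarith [f1 a]

theorem t_ROT1 : S_ROT1 := by
  intro V _ _ _ Φ a L hS
  have hΦ := hS.roots
  have ha : a ∈ Φ := hS.mem a (by simp)
  have ha1 := hΦ.unit a ha
  have hL1 : ∀ b ∈ L, ‖b‖ = 1 := fun b hb => hΦ.unit b (hS.mem b (by simp [hb]))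
  have hfin : ({x | x ∈ a :: L} : Set V).Finite := List.finite_toSet (a :: L)
  have hLeq : L.map (rf a) ++ [-a] = (L ++ [a]).map (rf a) := by
    rw [List.map_append, List.map_singleton, rf_self ha1]
  have hset : {x | x ∈ L.map (rf a) ++ [-a]} = (fun v => rf a v) '' {x | x ∈ a :: L} := by
    ext x
    rw [hLeq]
    constructor
    · intro hx
      obtain ⟨y, hy, rfl⟩ := List.mem_map.1 hx
      refine ⟨y, ?_, rfl⟩
      rcases List.mem_append.1 hy with h | h
      · exact List.mem_cons_of_mem _ h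
      · rw [List.mem_singleton.1 h]
        exact List.mem_cons_self
    · rintro ⟨y, hy, rfl⟩
      refine List.mem_map.2 ⟨y, ?_, rfl⟩
      rcases List.mem_cons.1 hy with h | h
      · exact List.mem_append_right _ (by rw [h]; exact List.mem_singleton_self _)
      · exact List.mem_append_left _ h
  have hcone : ∀ x, x ∈ cone {x | x ∈ L.map (rf a) ++ [-a]} ↔ rf a x ∈ cone {x | x ∈ a :: L} := by
    intro x
    constructor
    · intro hx
      have h1 := map_cone (rf a) hx
      rw [hset, Set.image_image] at h1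
      simpa only [rf_rf, Set.image_id'] using h1
    · intro hx
      have h1 := map_cone (rf a) hx
      rw [rf_rf, ← hset] at h1
      exact h1
  have hkey : ∀ b ∈ PL Φ (a :: L), b ≠ a → rf a b ∈ PL Φ (a :: L) := by
    rintro b ⟨hb1, hb2⟩ hne
    refine ⟨hΦ.refl a ha b hb1, ?_⟩
    rcases hS.pos _ (hΦ.refl a ha b hb1) with h1 | h1
    · exact h1
    · exact absurd (key hfin hS.indep (by simp) ha1 (hΦ.unit b hb1) hb2 h1) hne
  refine ⟨⟨hΦ, ?_, ?_, ?_, ?_, ?_⟩, ?_, ?_, hkey⟩
  · rw [hLeq]
    refine List.Nodup.map (rf a).injective ?_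
    have h1 := hS.nodup
    rw [List.nodup_cons] at h1
    rw [List.nodup_append]
    refine ⟨h1.2, by simp, ?_⟩
    intro x hx y hy hxy
    rw [List.mem_singleton] at hy
    rw [hxy, hy] at hx
    exact h1.1 hx
  · intro x hx
    have hx' : x ∈ {x | x ∈ L.map (rf a) ++ [-a]} := hx
    rw [hset] at hx'
    obtain ⟨y, hy, rfl⟩ := hx'
    exact hΦ.refl a ha y (hS.mem y hy)
  · have h1 : LinearIndepOn ℝ id {x | x ∈ a :: L} := hS.indep
    have h2 : LinearIndepOn ℝ id (((rf a).toLinearEquiv : V →ₗ[ℝ] V) '' {x | x ∈ a :: L}) :=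
      h1.id_imageₛ (fun x _ y _ hxy => (rf a).injective hxy)
    have h3 : LinearIndepOn ℝ id {x | x ∈ L.map (rf a) ++ [-a]} := by
      rw [hset]
      exact h2
    exact h3
  · rw [hset]
    have h1 : Submodule.span ℝ ((fun v => rf a v) '' {x | x ∈ a :: L}) =
        (Submodule.span ℝ {x | x ∈ a :: L}).map ((rf a).toLinearEquiv : V →ₗ[ℝ] V) := by
      rw [Submodule.map_span]
      rfl
    have h2 : Submodule.span ℝ {x | x ∈ a :: L} = ⊤ := hS.span
    rw [h1, h2, Submodule.map_top]
    exact LinearEquiv.range _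
  · intro b hb
    rw [hcone, hcone, map_neg]
    exact hS.pos _ (hΦ.refl a ha b hb)
  · rw [pr_append, pr_map_rf hL1, pr_single, rf_neg, pr_cons, mul_assoc, rf_mul, mul_one]
  · ext b
    constructor
    · rintro ⟨hb1, hb2⟩
      rw [hcone] at hb2
      by_cases h1 : rf a b = a
      · right
        rw [Set.mem_singleton_iff, ← rf_self ha1]
        have h2 := congrArg (rf a) h1
        rwa [rf_rf] at h2
      · left
        have h2 := hkey (rf a b) ⟨hΦ.refl a ha b hb1, hb2⟩ h1
        rw [rf_rf] at h2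
        refine ⟨h2, fun h3 => ?_⟩
        rw [Set.mem_singleton_iff] at h3
        rw [h3, rf_self ha1] at hb2
        exact neg_notMem hfin hS.indep (by simp) hb2
    · rintro (⟨hb, hne⟩ | hb)
      · refine ⟨hb.1, ?_⟩
        rw [hcone]
        exact (hkey b hb hne).2
      · rw [Set.mem_singleton_iff] at hb
        rw [hb]
        refine ⟨hΦ.neg ha, ?_⟩
        rw [hcone, map_neg, rf_self ha1, neg_neg]
        exact mem_cone (by simp)

end Pool.Agent.E8helper40.FL
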