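import Pool.Agent.E8helper40.FL.Rot1

/-!
# The simple roots of a positive system (MP_b68fb8_co, piece S_SIMP)
-/

set_option autoImplicit false

open scoped RealInnerProductSpace NNReal

namespace Pool.Agent.E8helper40.FL

open Pool.Agent.E8helper78.FL

variable {V : Type} [NormedAddCommGroup V] [InnerProductSpace ℝ V]

/-- an element of a cone is a multiple of a generator plus an element of the cone of the others -/
theorem cone_split {T : Set V} {b : V} (_hb : b ∈ T) {x : V} (hx : x ∈ cone T) :
    ∃ t : ℝ, 0 ≤ t ∧ ∃ y ∈ cone (T \ {b}), x = t • b + y := by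
  classical
  refine cone_induction (p := fun x => ∃ t : ℝ, 0 ≤ t ∧ ∃ y ∈ cone (T \ {b}), x = t • b + y) hx
    ?_ ?_ ?_ ?_
  · intro a ha
    by_cases h : a = b
    · exact ⟨1, zero_le_one, 0, zero_mem _, by rw [h, one_smul, add_zero]⟩
    · exact ⟨0, le_refl _, a, mem_cone ⟨ha, h⟩, by rw [zero_smul, zero_add]⟩
  · exact ⟨0, le_refl _, 0, zero_mem _, by rw [zero_smul, add_zero]⟩
  · rintro x y ⟨t, ht, u, hu, rfl⟩ ⟨t', ht', u', hu', rfl⟩
    exact ⟨t + t', add_nonneg ht ht', u + u', add_mem hu hu', by rw [add_smul]; abel⟩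
  · rintro s x hs ⟨t, ht, u, hu, rfl⟩
    exact ⟨s * t, mul_nonneg hs ht, s • u, smul_cone hu hs, by rw [smul_add, mul_smul]⟩

/-- if the other elements generate `b` the cone is generated by them -/
theorem cone_diff {T P : Set V} {b : V} (hP : P ⊆ cone T) (hb : b ∈ cone (T \ {b})) (hbT : b ∈ T) :
    P ⊆ cone (T \ {b}) := by
  intro x hx
  obtain ⟨t, ht, y, hy, rfl⟩ := cone_split hbT (hP hx)
  exact add_mem (smul_cone hb ht) hy

theorem t_SIMP : S_SIMP := by
  classical
  intro V _ _ _ Φ l hΦ hreg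
  have hPfin : (pos Φ l).Finite := hΦ.fin.subset fun a ha => ha.1
  -- a minimal generating subset
  obtain ⟨D, hD⟩ : ∃ D, Minimal (fun D : Set V => D ⊆ pos Φ l ∧ pos Φ l ⊆ cone D) D := by
    have hfin : {D : Set V | D ⊆ pos Φ l ∧ pos Φ l ⊆ cone D}.Finite :=
      hPfin.finite_subsets.subset fun D hD => hD.1
    obtain ⟨D, hD⟩ := hfin.exists_minimal ⟨pos Φ l, subset_refl _, fun a ha => mem_cone ha⟩
    exact ⟨D, hD⟩
  have hDP := hD.prop.1
  have hPD := hD.prop.2
  have hmin : ∀ b ∈ D, b ∉ cone (D \ {b}) := by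
    intro b hb hn
    have h1 := hD.le_of_le (y := D \ {b}) ⟨Set.sdiff_subset.trans hDP, cone_diff hPD hn hb⟩
      Set.sdiff_subset
    exact (h1 hb).2 rfl
  have hl : ∀ S ⊆ pos Φ l, ∀ x ∈ cone S, 0 ≤ ⟪l, x⟫ := by
    intro S hS x hx
    exact cone_nonneg hx (innerₗ V l) fun a ha => (hS ha).2.le
  have hlz : ∀ S ⊆ pos Φ l, ∀ x ∈ cone S, ⟪l, x⟫ = 0 → x = 0 := by
    intro S hS x hx h0
    exact cone_zero hx (innerₗ V l) (fun a ha => (hS ha).2) h0
  have hsign : ∀ a ∈ Φ, a ∉ pos Φ l → -a ∈ pos Φ l := by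
    intro a ha hn
    refine ⟨hΦ.neg ha, ?_⟩
    rw [inner_neg_right]
    have h1 : ¬ 0 < ⟪l, a⟫ := fun h => hn ⟨ha, h⟩
    have h2 := hreg a ha
    rcases lt_or_gt_of_ne h2 with h3 | h3
    · linarith
    · exact absurd h3 h1
  -- if `s • b` is in the cone of the others and `s > 0` then `b` is
  have hscale : ∀ b ∈ D, ∀ s : ℝ, 0 < s → s • b ∉ cone (D \ {b}) := by
    intro b hb s hs hn
    have h1 := smul_cone hn (inv_nonneg.2 hs.le)
    rw [smul_smul, inv_mul_cancel₀ hs.ne', one_smul] at h1
    exact hmin b hb h1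
  have hobt : ∀ a ∈ D, ∀ b ∈ D, a ≠ b → ⟪a, b⟫ ≤ 0 := by
    intro a ha b hb hab
    by_contra hc
    push Not at hc
    have ha1 := hΦ.unit a (hDP ha).1
    have hroot := hΦ.refl a (hDP ha).1 b (hDP hb).1
    by_cases hp : rf a b ∈ pos Φ l
    · obtain ⟨t, ht, y, hy, he⟩ := cone_split hb (hPD hp)
      rw [rf_apply ha1] at he
      have h2 : (1 - t) • b = (2 * ⟪a, b⟫) • a + y := by
        rw [sub_smul, one_smul, ← sub_eq_zero]
        rw [← sub_eq_zero] at he
        rw [← he]
        abel
      have h3 : (2 * ⟪a, b⟫) • a + y ∈ cone (D \ {b}) :=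
        add_mem (smul_cone (mem_cone (show a ∈ D \ {b} from ⟨ha, hab⟩)) (by linarith)) hy
      have h4 : 0 < 1 - t := by
        by_contra h5
        push Not at h5
        have h6 : 0 ≤ ⟪l, y⟫ := hl _ (Set.sdiff_subset.trans hDP) _ hy
        have h7 := congrArg (fun z => ⟪l, z⟫) h2
        simp only [inner_add_right, inner_smul_right] at h7
        have h8 := (hDP ha).2
        have h9 := (hDP hb).2
        have h10 : (1 - t) * ⟪l, b⟫ ≤ 0 := mul_nonpos_of_nonpos_of_nonneg h5 h9.le
        have h11 : 0 < 2 * ⟪a, b⟫ * ⟪l, a⟫ := by positivity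
        linarith
      rw [← h2] at h3
      exact hscale b hb _ h4 h3
    · obtain ⟨t, ht, y, hy, he⟩ := cone_split ha (hPD (hsign _ hroot hp))
      rw [rf_apply ha1] at he
      have h2 : (2 * ⟪a, b⟫ - t) • a = b + y := by
        rw [sub_smul, ← sub_eq_zero]
        rw [← sub_eq_zero] at he
        rw [← he]
        abel
      have h3 : b + y ∈ cone (D \ {a}) := add_mem (mem_cone ⟨hb, Ne.symm hab⟩) hy
      have h4 : 0 < 2 * ⟪a, b⟫ - t := by
        by_contra h5
        push Not at h5
        have h6 : 0 ≤ ⟪l, y⟫ := hl _ (Set.sdiff_subset.trans hDP) _ hy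
        have h7 := congrArg (fun z => ⟪l, z⟫) h2
        simp only [inner_add_right, inner_smul_right] at h7
        have h8 := (hDP ha).2
        have h9 := (hDP hb).2
        have h10 : (2 * ⟪a, b⟫ - t) * ⟪l, a⟫ ≤ 0 := mul_nonpos_of_nonpos_of_nonneg h5 h8.le
        linarith
      rw [← h2] at h3
      exact hscale a ha _ h4 h3
  have hDfin : D.Finite := hPfin.subset hDP
  have hindep : LinearIndependent ℝ (fun a : D => (a : V)) := by
    have h1 : LinearIndepOn ℝ id (hDfin.toFinset : Set V) := by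
      rw [linearIndepOn_finset_iff]
      intro f hf
      -- positive and negative parts
      have h2 : ∑ d ∈ hDfin.toFinset, (max (f d) 0) • d = ∑ d ∈ hDfin.toFinset, (max (-f d) 0) • d := by
        rw [← sub_eq_zero, ← Finset.sum_sub_distrib]
        rw [← hf]
        refine Finset.sum_congr rfl fun d _ => ?_
        rw [← sub_smul]
        congr 1
        rcases le_total 0 (f d) with h | h
        · rw [max_eq_left h, max_eq_right (by linarith), sub_zero]
        · rw [max_eq_right h, max_eq_left (by linarith), zero_sub, neg_neg]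
      set x := ∑ d ∈ hDfin.toFinset, (max (f d) 0) • d with hx
      have h3 : ⟪x, x⟫ ≤ 0 := by
        nth_rw 2 [h2]
        rw [hx, sum_inner]
        refine Finset.sum_nonpos fun d hd => ?_
        rw [inner_sum]
        refine Finset.sum_nonpos fun e he => ?_
        rw [inner_smul_left, inner_smul_right]
        simp only [conj_trivial]
        by_cases hde : d = e
        · subst hde
          rcases le_total 0 (f d) with h | h
          · rw [max_eq_right (a := -f d) (by linarith)]
            simp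
          · rw [max_eq_right h]
            simp
        · have h4 := hobt d (hDfin.mem_toFinset.1 hd) e (hDfin.mem_toFinset.1 he) hde
          have h5 : 0 ≤ max (f d) 0 := le_max_right _ _
          have h6 : 0 ≤ max (-f e) 0 := le_max_right _ _
          exact mul_nonpos_of_nonneg_of_nonpos h5 (mul_nonpos_of_nonneg_of_nonpos h6 h4)
      have h4 : x = 0 := by
        have h5 := real_inner_self_nonneg (x := x)
        exact inner_self_eq_zero.1 (le_antisymm h3 h5)
      have h5 : ∀ g : V → ℝ, (∀ d, 0 ≤ g d) → ∑ d ∈ hDfin.toFinset, g d • d = 0 →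
          ∀ d ∈ hDfin.toFinset, g d = 0 := by
        intro g hg h6 d hd
        have h7 := congrArg (fun z => ⟪l, z⟫) h6
        simp only [inner_sum, inner_zero_right, inner_smul_right] at h7
        have h8 := (Finset.sum_eq_zero_iff_of_nonneg (fun e he =>
          mul_nonneg (hg e) (hDP (hDfin.mem_toFinset.1 he)).2.le)).1 h7 d hd
        exact (mul_eq_zero.1 h8).resolve_right (hDP (hDfin.mem_toFinset.1 hd)).2.ne'
      intro d hd
      have h6 := h5 (fun d => max (f d) 0) (fun d => le_max_right _ _) h4 d hd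
      have h7 := h5 (fun d => max (-f d) 0) (fun d => le_max_right _ _) (h2.symm.trans h4) d hd
      have h8 : f d ≤ 0 := by
        exact (le_max_left (f d) 0).trans h6.le
      have h9 : -f d ≤ 0 := by
        exact (le_max_left (-f d) 0).trans h7.le
      linarith
    rw [Set.Finite.coe_toFinset] at h1
    exact h1
  refine ⟨D, hDP, hindep, hPD, fun a ha b hb hne => ?_⟩
  have hroot := hΦ.refl a (hDP ha).1 b hb.1
  by_contra hn
  exact hne (key hDfin hindep ha (hΦ.unit a (hDP ha).1) (hΦ.unit b hb.1) (hPD hb)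
    (hPD (hsign _ hroot hn)))

end Pool.Agent.E8helper40.FL
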