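import Pool.Agent.E8helper78.FL.Stm

/-!
# Uniqueness of compatible expansions (MP_b68fb8_co, piece S_UNI)
-/

set_option autoImplicit false

open scoped RealInnerProductSpace NNReal

namespace Pool.Agent.E8helper40.FL

open Pool.Agent.E8helper78.FL

variable {V : Type} [NormedAddCommGroup V] [InnerProductSpace ℝ V]

theorem isE_surj [FiniteDimensional ℝ V] {c : V ≃ₗᵢ[ℝ] V} {E : V →ₗ[ℝ] V →ₗ[ℝ] ℝ} (h : IsE c E)
    (x : V) : ∃ u, u - c u = x := by
  have hinj : Function.Injective ((LinearMap.id : V →ₗ[ℝ] V) - (c.toLinearEquiv : V →ₗ[ℝ] V)) := by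
    rw [← LinearMap.ker_eq_bot, LinearMap.ker_eq_bot']
    intro u hu
    have h1 : u - c u = 0 := hu
    have h2 := h u u
    rw [h1, map_zero, LinearMap.zero_apply] at h2
    exact inner_self_eq_zero.1 h2.symm
  obtain ⟨u, hu⟩ := (LinearMap.injective_iff_surjective.1 hinj) x
  exact ⟨u, hu⟩

theorem isE_self [FiniteDimensional ℝ V] {c : V ≃ₗᵢ[ℝ] V} {E : V →ₗ[ℝ] V →ₗ[ℝ] ℝ} (h : IsE c E)
    (x : V) : E x x = ⟪x, x⟫ / 2 := by
  obtain ⟨u, rfl⟩ := isE_surj h x
  rw [h u]
  have h1 : ⟪c u, c u⟫ = ⟪u, u⟫ := c.inner_map_map u u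
  rw [inner_sub_left, inner_sub_right, inner_sub_right, h1, real_inner_comm u (c u)]
  ring

theorem stay {Φ : Set V} {E : V →ₗ[ℝ] V →ₗ[ℝ] ℝ} {l r : ℕ → V} (hR : Rot Φ E l r) {i : ℕ} {z : V}
    (hz : z ∈ pos Φ (l i)) : ∀ d : ℕ, (∀ j, i ≤ j → j < i + d → r j ≠ z) → z ∈ pos Φ (l (i + d)) := by
  intro d
  induction d with
  | zero => intro _; exact hz
  | succ d ih =>
    intro h
    have h1 := ih fun j h2 h3 => h j h2 (by omega)
    rw [← add_assoc, hR.next (i + d)]
    exact Or.inl ⟨h1, fun h4 => h (i + d) (by omega) (by omega) (Set.mem_singleton_iff.1 h4).symm⟩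

theorem val_mem {Φ : Set V} {E : V →ₗ[ℝ] V →ₗ[ℝ] ℝ} {l r : ℕ → V} (hR : Rot Φ E l r) {k : ℕ}
    {S : Set V} {x : V} {C : Finset V} {a : V → ℝ} (hx : Exp E S x C a)
    (hk : ∀ y ∈ C, y ∈ pos Φ (l k)) (hC : r k ∈ C) : E x (r k) = a (r k) * E (r k) (r k) := by
  rw [hx.sum, map_sum, LinearMap.sum_apply, Finset.sum_eq_single (r k)]
  · rw [map_smul, LinearMap.smul_apply, smul_eq_mul]
  · intro y hy hne
    have h1 := hR.nonpos k y (hk y hy) hne
    have h2 := hx.comp y hy (r k) hC
    rw [map_smul, LinearMap.smul_apply, le_antisymm h1 h2, smul_zero]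
  · intro h
    exact absurd hC h

theorem val_not_mem {Φ : Set V} {E : V →ₗ[ℝ] V →ₗ[ℝ] ℝ} {l r : ℕ → V} (hR : Rot Φ E l r) {k : ℕ}
    {S : Set V} {x : V} {C : Finset V} {a : V → ℝ} (hx : Exp E S x C a)
    (hk : ∀ y ∈ C, y ∈ pos Φ (l k)) (hC : r k ∉ C) : E x (r k) ≤ 0 := by
  rw [hx.sum, map_sum, LinearMap.sum_apply]
  refine Finset.sum_nonpos fun y hy => ?_
  have h1 := hR.nonpos k y (hk y hy) fun h => hC (h ▸ hy)
  rw [map_smul, LinearMap.smul_apply, smul_eq_mul]
  exact mul_nonpos_of_nonneg_of_nonpos (hx.pos y hy).le h1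

open Classical in
theorem exp_erase {E : V →ₗ[ℝ] V →ₗ[ℝ] ℝ} {S : Set V} {x : V} {C : Finset V} {a : V → ℝ}
    (hx : Exp E S x C a) {z : V} (hz : z ∈ C) : Exp E S (x - a z • z) (C.erase z) a where
  mem := fun b hb => hx.mem b (Finset.mem_of_mem_erase hb)
  pos := fun b hb => hx.pos b (Finset.mem_of_mem_erase hb)
  comp := fun b hb b' hb' => hx.comp b (Finset.mem_of_mem_erase hb) b' (Finset.mem_of_mem_erase hb')
  sum := by
    rw [hx.sum, ← Finset.add_sum_erase C (fun b => a b • b) hz]
    abel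

theorem t_UNI : S_UNI := by
  classical
  intro V _ _ _ Φ c E l r hΦ hE hR i
  have key : ∀ n : ℕ, ∀ (x : V) (C D : Finset V) (a b : V → ℝ), C.card + D.card = n →
      Exp E (pos Φ (l i)) x C a → Exp E (pos Φ (l i)) x D b → C = D := by
    intro n
    induction n using Nat.strong_induction_on with
    | _ n ih =>
      intro x C D a b hn hC hD
      by_cases he : C ∪ D = ∅
      · rw [Finset.union_eq_empty] at he
        rw [he.1, he.2]
      obtain ⟨z, hz⟩ := Finset.nonempty_iff_ne_empty.2 he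
      have hmem : ∀ y ∈ C ∪ D, y ∈ pos Φ (l i) := by
        intro y hy
        rcases Finset.mem_union.1 hy with h | h
        · exact hC.mem y h
        · exact hD.mem y h
      have hex : ∃ d, r (i + d) ∈ C ∪ D := by
        obtain ⟨k, hk, hr⟩ := hR.all z (hmem z hz).1 i
        refine ⟨k - i, ?_⟩
        rw [show i + (k - i) = k by omega, hr]
        exact hz
      have hmin : ∀ m, m < Nat.find hex → ¬ r (i + m) ∈ C ∪ D := fun m hm => Nat.find_min hex hm
      have hk := Nat.find_spec hex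
      set d := Nat.find hex with hd
      have hst : ∀ y ∈ C ∪ D, y ∈ pos Φ (l (i + d)) := by
        intro y hy
        refine stay hR (hmem y hy) d fun j h1 h2 h3 => ?_
        refine hmin (j - i) (by omega) ?_
        rw [show i + (j - i) = j by omega, h3]
        exact hy
      have hpos : 0 < E (r (i + d)) (r (i + d)) := by
        rw [isE_self hE]
        have h1 := hΦ.unit _ (hR.mem (i + d)).1
        rw [real_inner_self_eq_norm_sq, h1]
        norm_num
      have hstC : ∀ y ∈ C, y ∈ pos Φ (l (i + d)) := fun y hy => hst y (Finset.mem_union_left _ hy)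
      have hstD : ∀ y ∈ D, y ∈ pos Φ (l (i + d)) := fun y hy => hst y (Finset.mem_union_right _ hy)
      have hCD : r (i + d) ∈ C ∧ r (i + d) ∈ D := by
        by_cases h1 : r (i + d) ∈ C
        · refine ⟨h1, ?_⟩
          by_contra h2
          have e1 := val_mem hR hC hstC h1
          have e2 := val_not_mem hR hD hstD h2
          rw [e1] at e2
          exact absurd (mul_pos (hC.pos _ h1) hpos) (not_lt.2 e2)
        · exfalso
          have h2 : r (i + d) ∈ D := (Finset.mem_union.1 hk).resolve_left h1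
          have e1 := val_mem hR hD hstD h2
          have e2 := val_not_mem hR hC hstC h1
          rw [e1] at e2
          exact absurd (mul_pos (hD.pos _ h2) hpos) (not_lt.2 e2)
      have hab : a (r (i + d)) = b (r (i + d)) := by
        have e1 := val_mem hR hC hstC hCD.1
        have e2 := val_mem hR hD hstD hCD.2
        rw [e1] at e2
        exact mul_right_cancel₀ hpos.ne' e2
      have hC' := exp_erase hC hCD.1
      have hD' := exp_erase hD hCD.2
      rw [← hab] at hD'
      have hlt : (C.erase (r (i + d))).card + (D.erase (r (i + d))).card < n := by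
        have h1 := Finset.card_erase_lt_of_mem hCD.1
        have h2 := Finset.card_erase_lt_of_mem hCD.2
        omega
      have h3 := ih _ hlt _ _ _ _ _ rfl hC' hD'
      rw [← Finset.insert_erase hCD.1, h3, Finset.insert_erase hCD.2]
  exact fun x C D a b hC hD => key _ x C D a b rfl hC hD

end Pool.Agent.E8helper40.FL
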